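import Mathlib

/-!
Definitions for critical graphs and chromatic schemes.
-/

namespace Pool.Agent.Work.MP_98e6b1_co

/-- `G` is `k`-critical: its chromatic number is `k` and every proper subgraph has
chromatic number less than `k`. -/
def IsCritical {V : Type} (G : SimpleGraph V) (k : ℕ) : Prop :=
  G.chromaticNumber = (k : ℕ∞) ∧ ∀ H : G.Subgraph, H ≠ ⊤ → H.coe.chromaticNumber < (k : ℕ∞)

/-- `G` has a chromatic `k`-scheme: a proper colouring `f` with colours `Fin k`, vertices
`x i` of colour `i`, and for `i < j` a path from `x i` to `x j` whose vertices are coloured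
alternately `i` and `j` (the vertex at position `m` has colour `i` for even `m` and colour `j`
for odd `m`). -/
def HasScheme {V : Type} (G : SimpleGraph V) (k : ℕ) : Prop :=
  ∃ (f : G.Coloring (Fin k)) (x : Fin k → V), (∀ i, f (x i) = i) ∧
    ∀ i j : Fin k, i < j → ∃ p : G.Walk (x i) (x j), p.IsPath ∧
      ∀ m ≤ p.length, f (p.getVert m) = if Even m then i else j

end Pool.Agent.Work.MP_98e6b1_co
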