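import Mathlib
import Pool.Agent.Work.MP_98e6b1_co.Defs

namespace Pool.Agent.Work.MP_98e6b1_co

/-- one step of a two-coloured chain -/
def KStep {V C : Type} (G : SimpleGraph V) (f : V → C) (i j : C) (a b : V) : Prop :=
  G.Adj a b ∧ (f a = i ∨ f a = j) ∧ (f b = i ∨ f b = j)

def Proper {V C : Type} (G : SimpleGraph V) (f : V → C) : Prop :=
  ∀ a b, G.Adj a b → f a ≠ f b

def WScheme {V : Type} (G : SimpleGraph V) (k : ℕ) : Prop :=
  ∃ (f : V → Fin k) (x : Fin k → V), Proper G f ∧ (∀ i, f (x i) = i) ∧
    ∀ i j : Fin k, i ≠ j → Relation.ReflTransGen (KStep G f i j) (x i) (x j)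

structure Good {V : Type} (G : SimpleGraph V) (j : ℕ) : Prop where
  col : ∃ c : V → Fin (j + 1), Proper G c
  ncol : ¬ ∃ c : V → Fin j, Proper G c
  edge : ∀ u v, G.Adj u v → ∃ c : V → Fin j, ∀ a b, G.Adj a b → c a = c b →
    (a = u ∧ b = v) ∨ (a = v ∧ b = u)
  noiso : ∀ v, ∃ w, G.Adj v w
  ne : Nonempty V
  nosch : ¬ WScheme G (j + 1)

theorem walk_chain {V C : Type} (G : SimpleGraph V) (f : V → C) (i j : C) {a b : V}
    (p : G.Walk a b) (h : ∀ v ∈ p.support, f v = i ∨ f v = j) :
    Relation.ReflTransGen (KStep G f i j) a b := by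
  induction p with
  | nil => exact Relation.ReflTransGen.refl
  | cons hadj q ih =>
    refine Relation.ReflTransGen.head ⟨hadj, h _ (by simp), h _ (by simp)⟩ (ih ?_)
    intro v hv
    exact h v (by simp [hv])

theorem wscheme_of_hasScheme {V : Type} (G : SimpleGraph V) (k : ℕ) (h : HasScheme G k) :
    WScheme G k := by
  obtain ⟨f, x, hx, hp⟩ := h
  have key : ∀ i j : Fin k, i < j → ∃ p : G.Walk (x i) (x j),
      ∀ v ∈ p.support, f v = i ∨ f v = j := by
    intro i j hij
    obtain ⟨p, -, hm⟩ := hp i j hij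
    refine ⟨p, fun v hv => ?_⟩
    obtain ⟨m, hm1, hm2⟩ := SimpleGraph.Walk.mem_support_iff_exists_getVert.mp hv
    have := hm m hm2
    rw [hm1] at this
    by_cases he : Even m
    · left; simpa [he] using this
    · right; simpa [he] using this
  refine ⟨f, x, fun a b hab => f.valid hab, hx, fun i j hij => ?_⟩
  rcases lt_or_gt_of_ne hij with h | h
  · obtain ⟨p, hp⟩ := key i j h
    exact walk_chain G f i j p hp
  · obtain ⟨p, hp⟩ := key j i h
    refine walk_chain G f i j p.reverse (fun v hv => ?_)
    have := hp v (by simpa using hv)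
    tauto

theorem Good.critical {V : Type} {G : SimpleGraph V} {j : ℕ} (h : Good G j) :
    IsCritical G (j + 1) := by
  obtain ⟨c, hc⟩ := h.col
  have h1 : G.Colorable (j + 1) := ⟨SimpleGraph.Coloring.mk c (fun {a b} hab => hc a b hab)⟩
  have h2 : ¬ G.Colorable j := fun ⟨d⟩ => h.ncol ⟨d, fun a b hab => d.valid hab⟩
  constructor
  · apply le_antisymm h1.chromaticNumber_le
    by_contra hlt
    push Not at hlt
    apply h2
    rw [← SimpleGraph.chromaticNumber_le_iff_colorable]
    have : ((j + 1 : ℕ) : ℕ∞) = (j : ℕ∞) + 1 := by push_cast; rfl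
    rw [this] at hlt
    exact Order.le_of_lt_add_one hlt
  · intro H hH
    have hex : ∃ u v, G.Adj u v ∧ ¬ H.Adj u v := by
      by_contra hcon
      push Not at hcon
      apply hH
      ext a b
      · simp only [SimpleGraph.Subgraph.verts_top, Set.mem_univ, iff_true]
        obtain ⟨w, hw⟩ := h.noiso a
        exact H.edge_vert (hcon a w hw)
      · simp only [SimpleGraph.Subgraph.top_adj]
        exact ⟨fun hh => H.adj_sub hh, fun hh => hcon _ _ hh⟩
    obtain ⟨u, v, huv, hn⟩ := hex
    obtain ⟨d, hd⟩ := h.edge u v huv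
    have h3 : H.coe.Colorable j := by
      refine ⟨SimpleGraph.Coloring.mk (fun a => d a.1) (fun {a b} hab heq => ?_)⟩
      have hab' : H.Adj a.1 b.1 := hab
      rcases hd a.1 b.1 (H.adj_sub hab') heq with ⟨ha, hb⟩ | ⟨ha, hb⟩
      · exact hn (ha ▸ hb ▸ hab')
      · exact hn (ha ▸ hb ▸ hab'.symm)
    refine lt_of_le_of_lt h3.chromaticNumber_le ?_
    exact_mod_cast Nat.lt_succ_self j

/-- the cone over a graph: a new vertex joined to all the old ones -/
def cone {V : Type} (G : SimpleGraph V) : SimpleGraph (Option V) where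
  Adj a b := match a, b with
    | none, none => False
    | none, some _ => True
    | some _, none => True
    | some u, some v => G.Adj u v
  symm := ⟨by
    intro a b h
    cases a <;> cases b <;> simp_all
    exact h.symm⟩
  loopless := ⟨by
    intro a h
    cases a
    · exact h
    · exact G.loopless.irrefl _ h⟩

theorem Good.cone {V : Type} {G : SimpleGraph V} {j : ℕ} (h : Good G j) :
    Good (cone G) (j + 1) := by
  classical
  refine ⟨?_, ?_, ?_, ?_, ⟨none⟩, ?_⟩
  · obtain ⟨c, hc⟩ := h.col
    refine ⟨fun a => a.elim (Fin.last _) (fun v => (c v).castSucc), ?_⟩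
    intro a b hab
    cases a <;> cases b
    · exact hab.elim
    · exact (Fin.castSucc_ne_last _).symm
    · exact Fin.castSucc_ne_last _
    · intro heq
      exact hc _ _ hab (Fin.castSucc_injective _ heq)
  · rintro ⟨c, hc⟩
    have : ∀ v : V, ∃ z, (c none).succAbove z = c (some v) := fun v =>
      Fin.exists_succAbove_eq (hc (some v) none trivial)
    choose g hg using this
    refine h.ncol ⟨g, fun a b hab heq => hc (some a) (some b) hab ?_⟩
    rw [← hg, ← hg, heq]
  · have apex : ∀ v : V, ∃ c : Option V → Fin (j + 1), ∀ a b, (MP_98e6b1_co.cone G).Adj a b →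
        c a = c b → (a = none ∧ b = some v) ∨ (a = some v ∧ b = none) := by
      intro v
      obtain ⟨w, hw⟩ := h.noiso v
      obtain ⟨d, hd⟩ := h.edge v w hw
      refine ⟨fun a => a.elim (Fin.last _)
        (fun u => if u = v then Fin.last _ else (d u).castSucc), ?_⟩
      intro a b hab heq
      cases a with
      | none =>
        cases b with
        | none => exact hab.elim
        | some b =>
          by_cases hb : b = v
          · left; simp [hb]
          · simp only [Option.elim, hb, if_false] at heq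
            exact ((Fin.castSucc_ne_last _) heq.symm).elim
      | some a =>
        cases b with
        | none =>
          by_cases ha : a = v
          · right; simp [ha]
          · simp only [Option.elim, ha, if_false] at heq
            exact ((Fin.castSucc_ne_last _) heq).elim
        | some b =>
          exfalso
          have hab' : G.Adj a b := hab
          by_cases ha : a = v
          · by_cases hb : b = v
            · exact hab'.ne (ha.trans hb.symm)
            · simp only [Option.elim, ha, hb, if_false, if_true] at heq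
              exact (Fin.castSucc_ne_last _) heq.symm
          · by_cases hb : b = v
            · simp only [Option.elim, ha, hb, if_false, if_true] at heq
              exact (Fin.castSucc_ne_last _) heq
            · simp only [Option.elim, ha, hb, if_false] at heq
              rcases hd a b hab' (Fin.castSucc_injective _ heq) with ⟨h1, _⟩ | ⟨_, h1⟩
              · exact ha h1
              · exact hb h1
    intro u v huv
    cases u with
    | none =>
      cases v with
      | none => exact huv.elim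
      | some v => exact apex v
    | some u =>
      cases v with
      | none =>
        obtain ⟨c, hc⟩ := apex u
        exact ⟨c, fun a b hab heq => (hc a b hab heq).symm⟩
      | some v =>
        obtain ⟨d, hd⟩ := h.edge u v huv
        refine ⟨fun a => a.elim (Fin.last _) (fun v => (d v).castSucc), ?_⟩
        intro a b hab heq
        cases a <;> cases b
        · exact hab.elim
        · exact ((Fin.castSucc_ne_last _) heq.symm).elim
        · exact ((Fin.castSucc_ne_last _) heq).elim
        · rcases hd _ _ hab (Fin.castSucc_injective _ heq) with ⟨h1, h2⟩ | ⟨h1, h2⟩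
          · left; simp [h1, h2]
          · right; simp [h1, h2]
  · intro a
    cases a with
    | none =>
      obtain ⟨v⟩ := h.ne
      exact ⟨some v, trivial⟩
    | some a => exact ⟨none, trivial⟩
  · rintro ⟨f, x, hf, hx, hch⟩
    apply h.nosch
    have : ∀ v : V, ∃ z, (f none).succAbove z = f (some v) := fun v =>
      Fin.exists_succAbove_eq (hf (some v) none trivial)
    choose g hg using this
    have hxs : ∀ i : Fin (j + 1), ∃ v, x ((f none).succAbove i) = some v := by
      intro i
      cases hxi : x ((f none).succAbove i) with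
      | none =>
        have := hx ((f none).succAbove i)
        rw [hxi] at this
        exact (Fin.succAbove_ne (f none) i this.symm).elim
      | some v => exact ⟨v, rfl⟩
    choose y hy using hxs
    have hinj := Fin.succAbove_right_injective (p := f none)
    refine ⟨g, y, fun a b hab heq => hf (some a) (some b) hab (by rw [← hg, ← hg, heq]),
      fun i => hinj (by rw [hg, ← hy, hx]), fun i k hik => ?_⟩
    have hc := hch _ _ (fun heq => hik (hinj heq))
    rw [hy, hy] at hc
    have lift : ∀ z : Option V, Relation.ReflTransGen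
        (KStep (MP_98e6b1_co.cone G) f ((f none).succAbove i) ((f none).succAbove k))
          (some (y i)) z →
        ∃ b, z = some b ∧ Relation.ReflTransGen (KStep G g i k) (y i) b := by
      intro z hz
      induction hz with
      | refl => exact ⟨_, rfl, Relation.ReflTransGen.refl⟩
      | @tail b c _ hbc ih =>
        obtain ⟨b', rfl, hb'⟩ := ih
        obtain ⟨hadj, h1, h2⟩ := hbc
        cases c with
        | none =>
          rcases h2 with h2 | h2
          · exact (Fin.succAbove_ne (f none) i h2.symm).elim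
          · exact (Fin.succAbove_ne (f none) k h2.symm).elim
        | some c' =>
          refine ⟨c', rfl, hb'.tail ⟨hadj, ?_, ?_⟩⟩
          · rw [← hg] at h1
            exact h1.imp (fun h => hinj h) (fun h => hinj h)
          · rw [← hg] at h2
            exact h2.imp (fun h => hinj h) (fun h => hinj h)
    obtain ⟨b, hb, hb'⟩ := lift _ hc
    cases hb
    exact hb'

/-- five triangles arranged cyclically, consecutive ones completely joined -/
def base : SimpleGraph (Fin 5 × Fin 3) where
  Adj a b := a ≠ b ∧ (a.1 = b.1 ∨ a.1 = b.1 + 1 ∨ b.1 = a.1 + 1)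
  symm := ⟨by
    intro a b h
    refine ⟨h.1.symm, ?_⟩
    rcases h.2 with h | h | h
    · exact Or.inl h.symm
    · exact Or.inr (Or.inr h)
    · exact Or.inr (Or.inl h)⟩
  loopless := ⟨fun a h => h.1 rfl⟩

instance : DecidableRel base.Adj := fun a b =>
  inferInstanceAs (Decidable (a ≠ b ∧ (a.1 = b.1 ∨ a.1 = b.1 + 1 ∨ b.1 = a.1 + 1)))

def idx (a : Fin 5 × Fin 3) : ℕ := 3 * a.1.val + a.2.val

def tbl : List ℕ := [0, 29440098841664, 29440098841608, 29439964885128, 29439964874376, 29439964759688, 0, 0, 0, 0, 0, 0, 29175010477704, 26769828791944, 3680084608648, 29440098841664, 0, 29440098841672, 29440098841224, 29440098834056, 29440098748040, 0, 0, 0, 0, 0, 0, 29243729954440, 27319584605832, 8078131119752, 29440098841608, 29440098841672, 0, 29440098841736, 29440098838152, 29440098780808, 0, 0, 0, 0, 0, 0, 29312317310600, 27869208299144, 12476045510280, 29439964885128, 29440098841224, 29440098841736, 0, 29440098842248, 29440098813576, 29379959637640, 29379965142664, 29379921102472, 0, 0, 0, 0, 0, 0, 29439964874376,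 29440098834056, 29440098838152, 29440098842248, 0, 29440098846344, 29440089441928, 29440096781960, 29440067421832, 0, 0, 0, 0, 0, 0, 29439964759688, 29440098748040, 29440098780808, 29440098813576, 29440098846344, 0, 29440089704072, 29440098879112, 29440084199048, 0, 0, 0, 0, 0, 0, 0, 0, 0, 29379959637640, 29440089441928, 29440089704072, 0, 29440088393352, 29440000312968, 29439956272776, 29438077224584, 29415528646280, 0, 0, 0, 0, 0, 0, 29379965142664, 29440096781960, 29440098879112, 29440088393352, 0, 29440100976264, 29440090490504, 29439150966408, 29424118580872, 0, 0, 0, 0, 0, 0, 29379921102472, 29440067421832, 29440084199048, 29440000312968, 29440100976264, 0, 29440017090184, 29439077566088, 29424045180552, 0, 0, 0, 0, 0, 0, 0, 0, 0, 29439956272776, 29440090490504, 29440017090184, 0, 29440224708232, 29432708515464, 29380229383816, 28418156709512, 16873284617864, 0, 0, 0, 0, 0, 0, 29438077224584, 29439150966408, 29439077566088, 29440224708232, 0, 29441298450056, 29381168907912, 28419096233608, 16874224141960,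 0, 0, 0, 0, 0, 0, 29415528646280, 29424118580872, 29424045180552, 29432708515464, 29441298450056, 0, 29449888384648, 28968852047496, 21272270653064, 29175010477704, 29243729954440, 29312317310600, 0, 0, 0, 0, 0, 0, 29380229383816, 29381168907912, 29449888384648, 0, 29518607861384, 25670317164168, 26769828791944, 27319584605832, 27869208299144, 0, 0, 0, 0, 0, 0, 28418156709512, 28419096233608, 28968852047496, 29518607861384, 0, 30068363675272, 3680084608648, 8078131119752, 12476045510280, 0, 0, 0, 0, 0, 0, 16873284617864, 16874224141960, 21272270653064, 25670317164168, 30068363675272, 0]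

def edgeCol (u v a : Fin 5 × Fin 3) : Fin 7 :=
  Fin.ofNat 7 (tbl.getD (15 * idx u + idx v) 0 / 8 ^ idx a % 8)

def baseCol (a : Fin 5 × Fin 3) : Fin 8 :=
  Fin.ofNat 8 ([0, 1, 2, 3, 4, 5, 0, 1, 6, 2, 3, 4, 5, 6, 7].getD (idx a) 0)

theorem base_col : ∀ a b, base.Adj a b → baseCol a ≠ baseCol b := by decide +kernel

private def all15 (f : ℕ → Bool) : Bool :=
  f 0 && (f 1 && (f 2 && (f 3 && (f 4 && (f 5 && (f 6 && (f 7 && (f 8 && (f 9 && (f 10 &&
    (f 11 && (f 12 && (f 13 && f 14)))))))))))))

private theorem all15_idx {f : ℕ → Bool} (h : all15 f = true) (a : Fin 5 × Fin 3) :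
    f (idx a) = true := by
  have k : idx a < 15 := by have := a.1.2; have := a.2.2; unfold idx; omega
  simp only [all15, Bool.and_eq_true] at h
  generalize idx a = n at k
  obtain ⟨h0, h1, h2, h3, h4, h5, h6, h7, h8, h9, h10, h11, h12, h13, h14⟩ := h
  interval_cases n <;> assumption

private def nadj (a b : ℕ) : Bool :=
  Nat.beq (Nat.mod (Nat.shiftRight
    26130175677797646351920395039993841071831324527086878827037633474622
    (Nat.add (Nat.mul 15 a) b)) 2) 0

private def colN (n a : ℕ) : ℕ := Nat.mod (Nat.mod (Nat.div n (Nat.pow 8 a)) 8) 7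

private def edgeChk (n u v : ℕ) : Bool :=
  all15 fun a => all15 fun b => (Nat.beq (colN n a) (colN n b)).rec true
    (nadj a b || (Nat.beq a u && Nat.beq b v || Nat.beq a v && Nat.beq b u))

theorem base_edge : ∀ u v, base.Adj u v → ∀ a b, base.Adj a b → edgeCol u v a = edgeCol u v b →
    (a = u ∧ b = v) ∨ (a = v ∧ b = u) := by
  have h1 : ∀ a b, base.Adj a b → nadj (idx a) (idx b) = false := by decide +kernel
  have h2 : ∀ a b, idx a = idx b → a = b := by decide +kernel
  have h3 : (all15 fun u => all15 fun v =>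
      nadj u v || edgeChk (tbl.getD (15 * u + v) 0) u v) = true := by decide +kernel
  intro u v huv a b hab e
  have k := all15_idx (all15_idx h3 u) v
  rw [h1 u v huv, Bool.false_or] at k
  replace k := all15_idx (all15_idx k a) b
  have e' : Nat.beq (colN (tbl.getD (15 * idx u + idx v) 0) (idx a))
      (colN (tbl.getD (15 * idx u + idx v) 0) (idx b)) = true :=
    Nat.beq_eq.mpr (congrArg Fin.val e)
  rw [e', h1 a b hab] at k
  simp only [Bool.false_or, Bool.or_eq_true, Bool.and_eq_true, Nat.beq_eq] at k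
  exact k.imp (fun k => ⟨h2 _ _ k.1, h2 _ _ k.2⟩) fun k => ⟨h2 _ _ k.1, h2 _ _ k.2⟩

theorem base_three : ∀ a b c : Fin 5 × Fin 3, a ≠ b → a ≠ c → b ≠ c →
    base.Adj a b ∨ base.Adj a c ∨ base.Adj b c := by decide +kernel

theorem base_noiso : ∀ v, ∃ w, base.Adj v w := by decide +kernel

theorem base_ncol : ¬ ∃ c : Fin 5 × Fin 3 → Fin 7, Proper base c := by
  rintro ⟨c, hc⟩
  obtain ⟨y, hy⟩ := Fintype.exists_lt_card_fiber_of_mul_lt_card c (n := 2) (by simp)
  obtain ⟨a, b, d, ha, hb, hd, hab, had, hbd⟩ := Finset.two_lt_card_iff.mp hy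
  simp only [Finset.mem_filter, Finset.mem_univ, true_and] at ha hb hd
  rcases base_three a b d hab had hbd with h | h | h
  · exact hc _ _ h (ha.trans hb.symm)
  · exact hc _ _ h (ha.trans hd.symm)
  · exact hc _ _ h (hb.trans hd.symm)

def emb (t : Fin 5) (q : Fin 3 × Fin 3) : Fin 5 × Fin 3 := (t + Fin.ofNat 5 q.1.val, q.2)

theorem emb_pair : ∀ (t : Fin 5) (p q : Fin 3 × Fin 3), p ≠ q → ¬ base.Adj (emb t p) (emb t q) →
    ((emb t p).1 = t ∧ (emb t q).1 = t + 2) ∨ ((emb t q).1 = t ∧ (emb t p).1 = t + 2) := by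
  decide +kernel

theorem base_pair (f : Fin 5 × Fin 3 → Fin 8) (hf : Proper base f) (t : Fin 5) :
    ∃ v w : Fin 5 × Fin 3, v.1 = t ∧ w.1 = t + 2 ∧ f v = f w := by
  obtain ⟨p, q, hpq, heq⟩ := Fintype.exists_ne_map_eq_of_card_lt (fun q => f (emb t q)) (by simp)
  rcases emb_pair t p q hpq (fun h => hf _ _ h heq) with ⟨h1, h2⟩ | ⟨h1, h2⟩
  · exact ⟨_, _, h1, h2, heq⟩
  · exact ⟨_, _, h1, h2, heq.symm⟩

theorem cls_aux : ∀ (t : Fin 5) (v w a : Fin 5 × Fin 3), v.1 = t → w.1 = t + 2 →
    ¬ base.Adj a v → ¬ base.Adj a w → a.1 = t ∨ a.1 = t + 2 := by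
  have h : ∀ (t : Fin 5) (v : Fin 5 × Fin 3), v.1 = t → ∀ w : Fin 5 × Fin 3, w.1 = t + 2 →
      ∀ a, ¬ base.Adj a v → ¬ base.Adj a w → a.1 = t ∨ a.1 = t + 2 := by decide +kernel
  exact fun t v w a h1 h2 => h t v h1 w h2 a

theorem step_aux : ∀ (t : Fin 5) (a b : Fin 5 × Fin 3), base.Adj a b →
    (a.1 = t ∨ a.1 = t + 2 ∨ a.1 = t + 2 + 2) → (b.1 = t ∨ b.1 = t + 2 ∨ b.1 = t + 2 + 2) →
    (a.1 = t + 2 ↔ b.1 = t + 2) := by
  decide +kernel

theorem far_adj : ∀ (t : Fin 5) (a b : Fin 5 × Fin 3), a.1 = t → b.1 = t + 2 + 2 →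
    base.Adj a b := by
  decide +kernel

theorem base_nosch : ¬ WScheme base 8 := by
  rintro ⟨f, x, hf, hx, hch⟩
  choose v w hv hw hvw using base_pair f hf
  have cls : ∀ t a, f a = f (v t) → a.1 = t ∨ a.1 = t + 2 := fun t a ha =>
    cls_aux t (v t) (w t) a (hv t) (hw t) (fun h => hf _ _ h ha)
      (fun h => hf _ _ h (ha.trans (hvw t)))
  have key : ∀ t, ((x (f (v t))).1 = t + 2 ↔ (x (f (v (t + 2)))).1 = t + 2) := by
    intro t
    have hne : f (v t) ≠ f (v (t + 2)) := by
      rw [hvw (t + 2)]
      exact hf _ _ (far_adj t _ _ (hv t) (hw (t + 2)))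
    have hc := hch _ _ hne
    have where_ : ∀ a, (f a = f (v t) ∨ f a = f (v (t + 2))) →
        (a.1 = t ∨ a.1 = t + 2 ∨ a.1 = t + 2 + 2) := by
      intro a ha
      rcases ha with ha | ha
      · have := cls t a ha; tauto
      · have := cls (t + 2) a ha; tauto
    generalize x (f (v (t + 2))) = z at hc
    induction hc with
    | refl => exact Iff.rfl
    | tail _ hbc ih =>
      exact ih.trans (step_aux t _ _ hbc.1 (where_ _ hbc.2.1) (where_ _ hbc.2.2))
  have loc : ∀ t, (x (f (v t))).1 = t ∨ (x (f (v t))).1 = t + 2 := fun t => cls t _ (hx _)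
  have fin : ∀ g : Fin 5 → Fin 5, (∀ t, g t = t ∨ g t = t + 2) →
      ¬ ∀ t, (g t = t + 2 ↔ g (t + 2) = t + 2) := by
    intro g h k
    have e : ∀ a b c d e : Fin 5, (a = 0 ∨ a = 2) → (b = 1 ∨ b = 3) → (c = 2 ∨ c = 4) →
        (d = 3 ∨ d = 0) → (e = 4 ∨ e = 1) → (a = 2 ↔ c = 2) → (b = 3 ↔ d = 3) → (c = 4 ↔ e = 4) →
        (d = 0 ↔ a = 0) → (e = 1 ↔ b = 1) → False := by
      rintro _ _ _ _ _ (rfl | rfl) (rfl | rfl) (rfl | rfl) (rfl | rfl) (rfl | rfl) <;> decide
    exact e _ _ _ _ _ (h 0) (h 1) (h 2) (h 3) (h 4) (k 0) (k 1) (k 2) (k 3) (k 4)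
  exact fin (fun t => (x (f (v t))).1) loc key

theorem base_good : Good base 7 :=
  ⟨⟨baseCol, base_col⟩, base_ncol, fun u v h => ⟨edgeCol u v, base_edge u v h⟩, base_noiso,
    ⟨(0, 0)⟩, base_nosch⟩

theorem exists_good (m : ℕ) : ∃ (V : Type) (_ : Finite V) (G : SimpleGraph V), Good G (7 + m) := by
  induction m with
  | zero => exact ⟨_, inferInstance, base, base_good⟩
  | succ m ih =>
    obtain ⟨V, hV, G, hG⟩ := ih
    exact ⟨Option V, inferInstance, cone G, hG.cone⟩

theorem main_ge (k : ℕ) (hk : 8 ≤ k) : ∃ (V : Type) (_ : Finite V) (G : SimpleGraph V),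
    IsCritical G k ∧ ¬ HasScheme G k := by
  obtain ⟨m, rfl⟩ : ∃ m, k = 7 + m + 1 := ⟨k - 8, by omega⟩
  obtain ⟨V, hV, G, hG⟩ := exists_good m
  exact ⟨V, hV, G, hG.critical, fun h => hG.nosch (wscheme_of_hasScheme G _ h)⟩

theorem chain_walk {V C : Type} (G : SimpleGraph V) (f : V → C) (i j : C) {a b : V}
    (ha : f a = i ∨ f a = j) (h : Relation.ReflTransGen (KStep G f i j) a b) :
    ∃ p : G.Walk a b, ∀ v ∈ p.support, f v = i ∨ f v = j := by
  induction h with
  | refl => exact ⟨SimpleGraph.Walk.nil, by simpa using ha⟩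
  | tail _ hbc ih =>
    obtain ⟨p, hp⟩ := ih
    refine ⟨p.concat hbc.1, fun v hv => ?_⟩
    rw [SimpleGraph.Walk.support_concat, List.mem_append] at hv
    rcases hv with hv | hv
    · exact hp v hv
    · rw [List.mem_singleton.mp hv]; exact hbc.2.2

theorem chain_symm {V C : Type} (G : SimpleGraph V) (f : V → C) (i j : C) {a b : V}
    (h : Relation.ReflTransGen (KStep G f i j) a b) :
    Relation.ReflTransGen (KStep G f j i) b a := by
  induction h with
  | refl => exact Relation.ReflTransGen.refl
  | tail _ hbc ih => exact Relation.ReflTransGen.head ⟨hbc.1.symm, hbc.2.2.symm, hbc.2.1.symm⟩ ih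

theorem hasScheme_of_wscheme {V : Type} (G : SimpleGraph V) (k : ℕ) (h : WScheme G k) :
    HasScheme G k := by
  classical
  obtain ⟨f, x, hf, hx, hch⟩ := h
  refine ⟨SimpleGraph.Coloring.mk f (fun {a b} hab => hf a b hab), x, hx, fun i j hij => ?_⟩
  obtain ⟨q, hq⟩ := chain_walk G f i j (Or.inl (hx i)) (hch i j hij.ne)
  refine ⟨q.bypass, q.bypass_isPath, ?_⟩
  have hp : ∀ v ∈ q.bypass.support, f v = i ∨ f v = j := fun v hv =>
    hq v (q.support_bypass_subset_support hv)
  generalize q.bypass = p at hp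
  intro m hm
  change f (p.getVert m) = _
  induction m with
  | zero => simp [hx]
  | succ m ih =>
    have h1 := ih (by omega)
    have h2 := hf _ _ (p.adj_getVert_succ (by omega : m < p.length))
    have h3 := hp _ (p.getVert_mem_support (m + 1))
    by_cases he : Even m
    · have : ¬ Even (m + 1) := by simpa [Nat.even_add_one] using he
      rw [if_pos he] at h1
      rw [if_neg this]
      rcases h3 with h3 | h3
      · exact (h2 (h1.trans h3.symm)).elim
      · exact h3
    · have : Even (m + 1) := by simpa [Nat.even_add_one] using he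
      rw [if_neg he] at h1
      rw [if_pos this]
      rcases h3 with h3 | h3
      · exact h3
      · exact (h2 (h1.trans h3.symm)).elim

theorem colorable_of_lt {V : Type} (G : SimpleGraph V) (j : ℕ)
    (h : G.chromaticNumber < ((j + 1 : ℕ) : ℕ∞)) : G.Colorable j := by
  rw [← SimpleGraph.chromaticNumber_le_iff_colorable]
  have : ((j + 1 : ℕ) : ℕ∞) = (j : ℕ∞) + 1 := by push_cast; rfl
  rw [this] at h
  exact Order.le_of_lt_add_one h

theorem crit_col {V : Type} {G : SimpleGraph V} {k : ℕ} (h : IsCritical G k) :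
    ∃ c : V → Fin k, Proper G c := by
  obtain ⟨c⟩ := SimpleGraph.chromaticNumber_le_iff_colorable.mp h.1.le
  exact ⟨c, fun a b hab => c.valid hab⟩

theorem crit_ncol {V : Type} {G : SimpleGraph V} {j : ℕ} (h : IsCritical G (j + 1)) :
    ¬ ∃ c : V → Fin j, Proper G c := by
  rintro ⟨c, hc⟩
  have h1 : G.Colorable j := ⟨SimpleGraph.Coloring.mk c (fun {a b} hab => hc a b hab)⟩
  have h2 := h1.chromaticNumber_le
  rw [h.1] at h2
  have : j + 1 ≤ j := by exact_mod_cast h2
  omega

theorem crit_edge {V : Type} {G : SimpleGraph V} {j : ℕ} (h : IsCritical G (j + 1)) :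
    ∀ u v, G.Adj u v → ∃ c : V → Fin j, ∀ a b, G.Adj a b → c a = c b →
      (a = u ∧ b = v) ∨ (a = v ∧ b = u) := by
  intro u v huv
  have hne : (⊤ : G.Subgraph).deleteEdges {s(u, v)} ≠ ⊤ := by
    intro heq
    have : ((⊤ : G.Subgraph).deleteEdges {s(u, v)}).Adj u v := by
      rw [heq]; exact huv
    simp at this
  obtain ⟨d⟩ := colorable_of_lt _ j (h.2 _ hne)
  refine ⟨fun a => d ⟨a, trivial⟩, fun a b hab heq => ?_⟩
  by_contra hcon
  refine d.valid (v := ⟨a, trivial⟩) (w := ⟨b, trivial⟩) ?_ heq
  change ((⊤ : G.Subgraph).deleteEdges {s(u, v)}).Adj a b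
  simp only [SimpleGraph.Subgraph.deleteEdges_adj, SimpleGraph.Subgraph.top_adj,
    Set.mem_singleton_iff, Sym2.eq_iff]
  exact ⟨hab, hcon⟩

theorem crit_noiso {V : Type} {G : SimpleGraph V} {j : ℕ} (h : IsCritical G (j + 1 + 1)) :
    ∀ v, ∃ w, G.Adj v w := by
  classical
  intro v
  by_contra hcon
  push Not at hcon
  have hne : (⊤ : G.Subgraph).deleteVerts {v} ≠ ⊤ := by
    intro heq
    have : v ∈ ((⊤ : G.Subgraph).deleteVerts {v}).verts := by
      rw [heq]; trivial
    simp at this
  obtain ⟨d⟩ := colorable_of_lt _ (j + 1) (h.2 _ hne)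
  refine crit_ncol h ⟨fun a => if ha : a = v then 0 else d ⟨a, by simpa using ha⟩,
    fun a b hab => ?_⟩
  have ha : a ≠ v := fun ha => hcon b (ha ▸ hab)
  have hb : b ≠ v := fun hb => hcon a (hb ▸ hab.symm)
  simp only [dif_neg ha, dif_neg hb]
  apply d.valid
  change ((⊤ : G.Subgraph).deleteVerts {v}).Adj a b
  simp [ha, hb, hab]

theorem crit_ne {V : Type} {G : SimpleGraph V} {j : ℕ} (h : IsCritical G (j + 1)) :
    Nonempty V := by
  by_contra hcon
  rw [not_nonempty_iff] at hcon
  exact crit_ncol h ⟨fun a => hcon.elim a, fun a => hcon.elim a⟩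

theorem small_scheme {V : Type} {G : SimpleGraph V} {k : ℕ} (h : IsCritical G k) (hk : k ≤ 3) :
    WScheme G k := by
  classical
  obtain ⟨f, hf⟩ := crit_col h
  interval_cases k
  · exact ⟨f, fun i => i.elim0, hf, fun i => i.elim0, fun i => i.elim0⟩
  · obtain ⟨v⟩ := crit_ne h
    exact ⟨f, fun _ => v, hf, fun i => Subsingleton.elim _ _,
      fun i j hij => (hij (Subsingleton.elim _ _)).elim⟩
  · obtain ⟨u⟩ := crit_ne h
    obtain ⟨v, huv⟩ := crit_noiso h u
    have hne := hf u v huv
    have two : ∀ a b i : Fin 2, a ≠ b → a ≠ i → b = i := by decide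
    have hx : ∀ i, f (if f u = i then u else v) = i := by
      intro i
      by_cases hi : f u = i
      · rw [if_pos hi]; exact hi
      · rw [if_neg hi]; exact two _ _ _ hne hi
    refine ⟨f, fun i => if f u = i then u else v, hf, hx, fun i j hij => ?_⟩
    refine Relation.ReflTransGen.single ⟨?_, Or.inl (hx i), Or.inr (hx j)⟩
    by_cases hi : f u = i
    · have hj : ¬ f u = j := fun hj => hij (hi.symm.trans hj)
      simp only [if_pos hi, if_neg hj]; exact huv
    · have hj : f u = j := (two i j (f u) hij (Ne.symm hi)).symm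
      simp only [if_neg hi, if_pos hj]; exact huv.symm
  · obtain ⟨u⟩ := crit_ne h
    obtain ⟨v, huv⟩ := crit_noiso h u
    obtain ⟨c, hc⟩ := crit_edge h u v huv
    have hc' : ∀ a b, G.Adj a b → a ≠ u → b ≠ u → c a ≠ c b := by
      intro a b hab ha hb heq
      rcases hc a b hab heq with ⟨h1, _⟩ | ⟨_, h1⟩
      · exact ha h1
      · exact hb h1
    obtain ⟨g, hgu, hg⟩ : ∃ g : V → Fin 3, g u = 2 ∧ ∀ a, a ≠ u → g a = (c a).castSucc :=
      ⟨fun a => if a = u then 2 else (c a).castSucc, by simp, fun a ha => by simp [ha]⟩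
    have cs : ∀ z : Fin 2, z.castSucc ≠ (2 : Fin 3) := by decide
    have cs2 : ∀ z : Fin 2, z.castSucc = (0 : Fin 3) ∨ z.castSucc = (1 : Fin 3) := by decide
    have hgp : Proper G g := by
      intro a b hab
      by_cases ha : a = u
      · have hb : b ≠ u := fun hb => hab.ne (ha.trans hb.symm)
        rw [ha, hgu, hg b hb]; exact (cs _).symm
      · by_cases hb : b = u
        · rw [hb, hgu, hg a ha]; exact cs _
        · rw [hg a ha, hg b hb]
          exact fun heq => hc' a b hab ha hb (Fin.castSucc_injective _ heq)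
    have hex : ∃ y a, G.Adj u y ∧ g y = 1 ∧ G.Adj u a ∧ g a = 0 ∧
        Relation.ReflTransGen (KStep G g 1 0) y a := by
      by_contra hcon
      let S : V → Prop := fun a => ∃ y, G.Adj u y ∧ g y = 1 ∧
        Relation.ReflTransGen (KStep G g 1 0) y a
      have hS : ∀ a b, G.Adj a b → a ≠ u → b ≠ u → S a → S b := by
        rintro a b hab ha hb ⟨y, h1, h2, h3⟩
        refine ⟨y, h1, h2, h3.tail ⟨hab, ?_, ?_⟩⟩
        · rw [hg a ha]; exact (cs2 _).symm
        · rw [hg b hb]; exact (cs2 _).symm
      have hN : ∀ b, G.Adj u b → (if S b then c b + 1 else c b) ≠ 1 := by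
        intro b hb
        have hbu : b ≠ u := hb.ne.symm
        by_cases hs : S b
        · rw [if_pos hs]
          obtain ⟨y, h1, h2, h3⟩ := hs
          have : g b ≠ 0 := fun h0 => hcon ⟨y, b, h1, h2, hb, h0, h3⟩
          rw [hg b hbu] at this
          revert this
          generalize c b = z
          revert z
          decide
        · rw [if_neg hs]
          intro h1
          exact hs ⟨b, hb, by rw [hg b hbu, h1]; rfl, Relation.ReflTransGen.refl⟩
      refine crit_ncol h ⟨fun a => if a = u then 1 else if S a then c a + 1 else c a,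
        fun a b hab => ?_⟩
      by_cases ha : a = u
      · have hb : b ≠ u := fun hb => hab.ne (ha.trans hb.symm)
        simp only [if_pos ha, if_neg hb]
        exact (hN b (ha ▸ hab)).symm
      · by_cases hb : b = u
        · simp only [if_neg ha, if_pos hb]
          exact hN a (hb ▸ hab.symm)
        · simp only [if_neg ha, if_neg hb]
          have := hc' a b hab ha hb
          by_cases hs : S a
          · rw [if_pos hs, if_pos (hS a b hab ha hb hs)]
            exact fun heq => this (add_right_cancel heq)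
          · rw [if_neg hs, if_neg (fun hs' => hs (hS b a hab.symm hb ha hs'))]
            exact this
    obtain ⟨y, a, h1, h2, h3, h4, h5⟩ := hex
    refine ⟨g, ![a, y, u], hgp, fun i => by fin_cases i <;> simp [h2, h4, hgu], fun i j hij => ?_⟩
    fin_cases i <;> fin_cases j
    · exact (hij rfl).elim
    · exact chain_symm G g _ _ h5
    · exact Relation.ReflTransGen.single ⟨h3.symm, Or.inl h4, Or.inr hgu⟩
    · exact h5
    · exact (hij rfl).elim
    · exact Relation.ReflTransGen.single ⟨h1.symm, Or.inl h2, Or.inr hgu⟩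
    · exact Relation.ReflTransGen.single ⟨h3, Or.inl hgu, Or.inr h4⟩
    · exact Relation.ReflTransGen.single ⟨h1, Or.inl hgu, Or.inr h2⟩
    · exact (hij rfl).elim

theorem four_le {V : Type} {G : SimpleGraph V} {k : ℕ} (h : IsCritical G k)
    (hs : ¬ HasScheme G k) : 4 ≤ k := by
  by_contra hk
  exact hs (hasScheme_of_wscheme G k (small_scheme h (by omega)))

theorem up {k : ℕ} (h : ∃ (V : Type) (_ : Finite V) (G : SimpleGraph V),
    IsCritical G k ∧ ¬ HasScheme G k) : ∃ (V : Type) (_ : Finite V) (G : SimpleGraph V),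
    IsCritical G (k + 1) ∧ ¬ HasScheme G (k + 1) := by
  obtain ⟨V, hV, G, h1, h2⟩ := h
  obtain ⟨j, rfl⟩ : ∃ j, k = j + 1 + 1 := ⟨k - 2, by have := four_le h1 h2; omega⟩
  have hG : Good G (j + 1) := ⟨crit_col h1, crit_ncol h1, crit_edge h1, crit_noiso h1, crit_ne h1,
    fun h => h2 (hasScheme_of_wscheme G _ h)⟩
  exact ⟨Option V, inferInstance, cone G, hG.cone.critical,
    fun h => hG.cone.nosch (wscheme_of_hasScheme _ _ h)⟩

theorem main : ∃ k₀ : ℕ, 4 ≤ k₀ ∧ k₀ ≤ 8 ∧ ∀ k : ℕ,
    (∃ (V : Type) (_ : Finite V) (G : SimpleGraph V), IsCritical G k ∧ ¬ HasScheme G k) ↔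
      k₀ ≤ k := by
  classical
  have hex : ∃ k, ∃ (V : Type) (_ : Finite V) (G : SimpleGraph V),
      IsCritical G k ∧ ¬ HasScheme G k := ⟨8, main_ge 8 le_rfl⟩
  refine ⟨Nat.find hex, ?_, Nat.find_min' hex (main_ge 8 le_rfl), fun k => ⟨fun h => Nat.find_min' hex h, fun h => ?_⟩⟩
  · obtain ⟨V, hV, G, h1, h2⟩ := Nat.find_spec hex
    exact four_le h1 h2
  · induction k, h using Nat.le_induction with
    | base => exact Nat.find_spec hex
    | succ k _ ih => exact up ih

end Pool.Agent.Work.MP_98e6b1_co
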